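import Mathlib

/-!
# MP_4dddeb_co : the set of edge numbers of edge-maximal minor-free graphs can be sparse

For the set `𝓗` of all connected graphs on four vertices (equivalently `{P₄, K_{1,3}}`), the
edge-maximal `𝓗`-free graphs are disjoint unions of `K₃`'s and `K₂`'s, or of `K₃`'s and one `K₁`.
-/

namespace Pool.Agent.Results.MP_4dddeb_co.EdgeNumberGaps

open SimpleGraph Filter

/-- `H` is a minor of `G`: there are pairwise disjoint connected (nonempty) branch sets in `G`,
one for each vertex of `H`, with an edge of `G` between the branch sets of adjacent vertices. -/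
def IsMinor {V W : Type*} (H : SimpleGraph W) (G : SimpleGraph V) : Prop :=
  ∃ B : W → Set V, (∀ w, (G.induce (B w)).Connected) ∧
    (∀ w w', w ≠ w' → Disjoint (B w) (B w')) ∧
    ∀ w w', H.Adj w w' → ∃ x ∈ B w, ∃ y ∈ B w', G.Adj x y

/-- A set of finite graphs (each given on some `Fin k`). -/
abbrev GraphSet := Set (Σ k : ℕ, SimpleGraph (Fin k))

/-- A suitable set: nonempty, and every member has at least one edge. -/
def Suitable (𝓗 : GraphSet) : Prop := 𝓗.Nonempty ∧ ∀ H ∈ 𝓗, ∃ a b, H.2.Adj a b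

/-- `G` is `𝓗`-free: it has no minor in `𝓗`. -/
def MinorFree (𝓗 : GraphSet) {V : Type*} (G : SimpleGraph V) : Prop :=
  ∀ H ∈ 𝓗, ¬ IsMinor H.2 G

/-- `G` is edge-maximal `𝓗`-free. -/
def EdgeMaximal (𝓗 : GraphSet) {V : Type*} (G : SimpleGraph V) : Prop :=
  MinorFree 𝓗 G ∧ ∀ u v, u ≠ v → ¬ G.Adj u v → ¬ MinorFree 𝓗 (G ⊔ SimpleGraph.edge u v)

/-- The set of edge numbers of edge-maximal `𝓗`-free graphs on `n` vertices. -/
def E (𝓗 : GraphSet) (n : ℕ) : Set ℕ :=
  {m | ∃ G : SimpleGraph (Fin n), EdgeMaximal 𝓗 G ∧ G.edgeSet.ncard = m}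

/-- The gap `M⁺(n) - M⁻(n)`. -/
noncomputable def gap (𝓗 : GraphSet) (n : ℕ) : ℤ := (sSup (E 𝓗 n) : ℕ) - (sInf (E 𝓗 n) : ℕ)

/-- `Ex(𝓗)` is linearly impure: `liminf gap(n)/n > 0`. -/
def LinearlyImpure (𝓗 : GraphSet) : Prop :=
  ∃ c : ℝ, 0 < c ∧ ∀ᶠ n : ℕ in atTop, c ≤ (gap 𝓗 n : ℝ) / n

/-- The set of all connected graphs on four vertices. -/
def H4 : GraphSet := {p | ∃ H : SimpleGraph (Fin 4), H.Connected ∧ p = ⟨4, H⟩}

lemma suitable_H4 : Suitable H4 := by
  refine ⟨⟨⟨4, ⊤⟩, ⊤, connected_top, rfl⟩, ?_⟩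
  rintro _ ⟨H, hH, rfl⟩
  obtain ⟨b, hb⟩ := hH.preconnected.exists_adj_of_nontrivial 0
  exact ⟨0, b, hb⟩

lemma minorFree_iff {V : Type*} {G : SimpleGraph V} :
    MinorFree H4 G ↔ ∀ H : SimpleGraph (Fin 4), H.Connected → ¬ IsMinor H G := by
  constructor
  · intro h H hH
    exact h ⟨4, H⟩ ⟨H, hH, rfl⟩
  · rintro h _ ⟨H, hH, rfl⟩
    exact h H hH

lemma closed_reach {V : Type*} {G : SimpleGraph V} {S : V → Prop}
    (h : ∀ a b, G.Adj a b → S a → S b) {a b : V} (hr : G.Reachable a b) (ha : S a) : S b := by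
  obtain ⟨w⟩ := hr
  induction w with
  | nil => exact ha
  | cons hadj _ ih => exact ih (h _ _ hadj ha)

/-- Four distinct vertices spanning a connected graph give a minor. -/
lemma not_connected_comap {V : Type*} {G : SimpleGraph V} (hG : MinorFree H4 G)
    (f : Fin 4 → V) (hf : Function.Injective f) : ¬ (G.comap f).Connected := by
  intro hc
  apply minorFree_iff.1 hG _ hc
  refine ⟨fun i => {f i}, ?_, ?_, ?_⟩
  · intro i
    have : Nonempty ({f i} : Set V) := ⟨⟨f i, rfl⟩⟩
    have : Subsingleton ({f i} : Set V) := by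
      constructor
      rintro ⟨a, rfl⟩ ⟨b, rfl⟩
      rfl
    refine ⟨fun a b => ?_⟩
    rw [Subsingleton.elim a b]
  · intro i j hij
    rw [Set.disjoint_singleton]
    exact fun h => hij (hf h)
  · intro i j hij
    exact ⟨f i, rfl, f j, rfl, hij⟩

/-- Replacing the graph inside a closed set with at most three vertices keeps it free. -/
lemma free_of_closed {V : Type*} {G G' : SimpleGraph V} (hG : MinorFree H4 G)
    (S : Finset V) (hS : S.card ≤ 3) (hcl : ∀ a b, G'.Adj a b → a ∈ S → b ∈ S)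
    (hout : ∀ a b, a ∉ S → b ∉ S → (G'.Adj a b → G.Adj a b)) : MinorFree H4 G' := by
  rw [minorFree_iff]
  rintro H hH ⟨B, hB, hdis, hadj⟩
  have hall : ∀ i, (∃ x ∈ B i, x ∈ S) → ∀ y ∈ B i, y ∈ S := by
    rintro i ⟨x, hx, hxS⟩ y hy
    have hr := (hB i).preconnected ⟨x, hx⟩ ⟨y, hy⟩
    exact closed_reach (S := fun z : B i => z.1 ∈ S) (fun a b hab ha => hcl _ _ hab ha) hr hxS
  by_cases h0 : ∃ x ∈ B 0, x ∈ S
  · have hP : ∀ i, ∃ x ∈ B i, x ∈ S := by
      intro i
      apply closed_reach (G := H) (S := fun i => ∃ x ∈ B i, x ∈ S) _ (hH.preconnected 0 i) h0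
      intro a b hab ha
      obtain ⟨x, hx, y, hy, hxy⟩ := hadj a b hab
      exact ⟨y, hy, hcl _ _ hxy (hall a ha x hx)⟩
    choose g hg hgS using hP
    have hinj : Function.Injective g := by
      intro i j hij
      by_contra hne
      have := Set.disjoint_left.1 (hdis i j hne) (hg i)
      rw [hij] at this
      exact this (hg j)
    have : (Finset.univ : Finset (Fin 4)).card ≤ S.card :=
      Finset.card_le_card_of_injOn g (fun i _ => hgS i) hinj.injOn
    simp at this
    omega
  · have hP : ∀ i, ¬ ∃ x ∈ B i, x ∈ S := by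
      intro i
      apply closed_reach (G := H) (S := fun i => ¬ ∃ x ∈ B i, x ∈ S) _ (hH.preconnected 0 i) h0
      rintro a b hab ha hb
      obtain ⟨x, hx, y, hy, hxy⟩ := hadj a b hab
      exact ha ⟨x, hx, hcl _ _ hxy.symm (hall b hb y hy)⟩
    apply minorFree_iff.1 hG H hH
    refine ⟨B, ?_, hdis, ?_⟩
    · intro i
      refine (hB i).mono ?_
      rintro ⟨a, ha⟩ ⟨b, hb⟩ hab
      exact hout a b (fun h => hP i ⟨a, ha, h⟩) (fun h => hP i ⟨b, hb, h⟩) hab
    · intro i j hij
      obtain ⟨x, hx, y, hy, hxy⟩ := hadj i j hij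
      exact ⟨x, hx, y, hy, hout x y (fun h => hP i ⟨x, hx, h⟩) (fun h => hP j ⟨y, hy, h⟩) hxy⟩

lemma inj4 {V : Type*} {a b c d : V} (h1 : a ≠ b) (h2 : a ≠ c) (h3 : a ≠ d) (h4 : b ≠ c)
    (h5 : b ≠ d) (h6 : c ≠ d) : Function.Injective ![a, b, c, d] := by
  intro i j hij
  fin_cases i <;> fin_cases j <;> simp_all

/-- In a free graph there is no path `a b c` with a further neighbour of `a`, `b` or `c`. -/
lemma no_four {V : Type*} {G : SimpleGraph V} (hG : MinorFree H4 G) {a b c d : V}
    (h1 : a ≠ c) (h2 : d ≠ a) (h3 : d ≠ b) (h4 : d ≠ c)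
    (hab : G.Adj a b) (hbc : G.Adj b c) (hd : G.Adj a d ∨ G.Adj b d ∨ G.Adj c d) : False := by
  apply not_connected_comap hG ![a, b, c, d] (inj4 hab.ne h1 h2.symm hbc.ne h3.symm h4.symm)
  have h01 : (G.comap ![a, b, c, d]).Adj 0 1 := hab
  have h12 : (G.comap ![a, b, c, d]).Adj 1 2 := hbc
  have hr1 : (G.comap ![a, b, c, d]).Reachable 0 1 := h01.reachable
  have hr2 : (G.comap ![a, b, c, d]).Reachable 0 2 := hr1.trans h12.reachable
  have hr3 : (G.comap ![a, b, c, d]).Reachable 0 3 := by
    rcases hd with h | h | h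
    · exact Adj.reachable (show (G.comap ![a, b, c, d]).Adj 0 3 from h)
    · exact hr1.trans (Adj.reachable (show (G.comap ![a, b, c, d]).Adj 1 3 from h))
    · exact hr2.trans (Adj.reachable (show (G.comap ![a, b, c, d]).Adj 2 3 from h))
  rw [connected_iff_exists_forall_reachable]
  refine ⟨0, ?_⟩
  intro i
  fin_cases i
  · exact Reachable.refl _
  · exact hr1
  · exact hr2
  · exact hr3

section structure_

variable {V : Type*} {G : SimpleGraph V}

/-- Adjacency is transitive in edge-maximal graphs. -/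
lemma trans_adj [DecidableEq V] (hG : EdgeMaximal H4 G) {u w v : V} (huv : u ≠ v)
    (h1 : G.Adj u w) (h2 : G.Adj w v) : G.Adj u v := by
  by_contra hn
  apply hG.2 u v huv hn
  have hcl : ∀ a b, G.Adj a b → a ∈ ({u, w, v} : Finset V) → b ∈ ({u, w, v} : Finset V) := by
    intro a b hab ha
    by_contra hb
    simp only [Finset.mem_insert, Finset.mem_singleton, not_or] at ha hb
    apply no_four hG.1 (a := u) (b := w) (c := v) (d := b) huv hb.1 hb.2.1 hb.2.2 h1 h2
    rcases ha with rfl | rfl | rfl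
    · exact Or.inl hab
    · exact Or.inr (Or.inl hab)
    · exact Or.inr (Or.inr hab)
  apply free_of_closed hG.1 {u, w, v} Finset.card_le_three
  · rintro a b (hab | hab) ha
    · exact hcl a b hab ha
    · rw [SimpleGraph.edge_adj] at hab
      rcases hab.1 with ⟨rfl, rfl⟩ | ⟨rfl, rfl⟩ <;> simp
  · rintro a b ha hb (hab | hab)
    · exact hab
    · rw [SimpleGraph.edge_adj] at hab
      rcases hab.1 with ⟨rfl, rfl⟩ | ⟨rfl, rfl⟩ <;> simp at ha

/-- If `u ≠ v` are not adjacent and the union of their closed neighbourhoods is contained in a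
set with at most three elements, the graph is not edge-maximal. -/
lemma not_small (hG : EdgeMaximal H4 G) {u v : V} (huv : u ≠ v) (hn : ¬ G.Adj u v)
    (S : Finset V) (hS : S.card ≤ 3) (hu : u ∈ S) (hv : v ∈ S)
    (hcl : ∀ a b, G.Adj a b → a ∈ S → b ∈ S) : False := by
  apply hG.2 u v huv hn
  apply free_of_closed hG.1 S hS
  · rintro a b (hab | hab) ha
    · exact hcl a b hab ha
    · rw [SimpleGraph.edge_adj] at hab
      rcases hab.1 with ⟨rfl, rfl⟩ | ⟨rfl, rfl⟩
      · exact hv
      · exact hu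
  · rintro a b ha hb (hab | hab)
    · exact hab
    · rw [SimpleGraph.edge_adj] at hab
      rcases hab.1 with ⟨rfl, rfl⟩ | ⟨rfl, rfl⟩
      · exact absurd hu ha
      · exact absurd hv ha

variable [Fintype V] [DecidableEq V] [DecidableRel G.Adj]

omit [DecidableEq V] in
lemma degree_le (hG : EdgeMaximal H4 G) (v : V) : G.degree v ≤ 2 := by
  by_contra h
  push Not at h
  rw [← card_neighborFinset_eq_degree, Finset.two_lt_card_iff] at h
  obtain ⟨a, b, c, ha, hb, hc, hab, hac, hbc⟩ := h
  rw [mem_neighborFinset] at ha hb hc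
  exact no_four hG.1 (a := a) (b := v) (c := b) (d := c) hab hac.symm hc.ne' hbc.symm
    ha.symm hb (Or.inr (Or.inl hc))

/-- If there is an isolated vertex, all other vertices have degree two. -/
lemma degree_eq_two (hG : EdgeMaximal H4 G) {v w : V} (hv : G.degree v = 0) (hvw : v ≠ w) :
    G.degree w = 2 := by
  have hle := degree_le hG w
  have hiso : ∀ b, ¬ G.Adj v b := by
    intro b hb
    have hpos : 0 < G.degree v := by
      rw [degree_pos_iff_exists_adj]; exact ⟨b, hb⟩
    omega
  by_contra hne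
  have h01 : G.degree w = 0 ∨ G.degree w = 1 := by omega
  rcases h01 with h0 | h1
  · apply not_small hG hvw (hiso w) {v, w} (le_trans Finset.card_le_two (by norm_num))
      (by simp) (by simp)
    intro a b hab ha
    simp only [Finset.mem_insert, Finset.mem_singleton] at ha
    rcases ha with rfl | rfl
    · exact absurd hab (hiso b)
    · exfalso
      have hpos : 0 < G.degree a := by
        rw [degree_pos_iff_exists_adj]; exact ⟨b, hab⟩
      omega
  · rw [← card_neighborFinset_eq_degree, Finset.card_eq_one] at h1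
    obtain ⟨z, hz⟩ := h1
    have hwz : G.Adj w z := by
      rw [← mem_neighborFinset, hz]; simp
    have hw : ∀ b, G.Adj w b → b = z := by
      intro b hb
      rw [← mem_neighborFinset, hz] at hb
      simpa using hb
    apply not_small hG hvw (hiso w) {v, w, z} Finset.card_le_three (by simp) (by simp)
    intro a b hab ha
    simp only [Finset.mem_insert, Finset.mem_singleton] at ha ⊢
    rcases ha with rfl | rfl | rfl
    · exact absurd hab (hiso b)
    · exact Or.inr (Or.inr (hw b hab))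
    · by_cases hbw : b = w
      · exact Or.inr (Or.inl hbw)
      · have := hw b (trans_adj hG (Ne.symm hbw) hwz hab)
        exact absurd this hab.ne'

/-- The closed neighbourhood. -/
def cn (G : SimpleGraph V) [DecidableRel G.Adj] (v : V) : Finset V :=
  Finset.univ.filter fun w => w = v ∨ G.Adj v w

lemma card_cn (v : V) : (cn G v).card = G.degree v + 1 := by
  have : cn G v = insert v (G.neighborFinset v) := by
    ext w; simp [cn]
  rw [this, Finset.card_insert_of_notMem (by simp), card_neighborFinset_eq_degree]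

lemma cn_eq_iff (hG : EdgeMaximal H4 G) (v w : V) : cn G w = cn G v ↔ w ∈ cn G v := by
  constructor
  · intro h
    rw [← h]; simp [cn]
  · intro h
    simp only [cn, Finset.mem_filter, Finset.mem_univ, true_and] at h
    rcases h with rfl | h
    · rfl
    · ext z
      simp only [cn, Finset.mem_filter, Finset.mem_univ, true_and]
      constructor
      · rintro (rfl | hz)
        · exact Or.inr h
        · by_cases hzv : z = v
          · exact Or.inl hzv
          · exact Or.inr (trans_adj hG (Ne.symm hzv) h hz)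
      · rintro (rfl | hz)
        · exact Or.inr h.symm
        · by_cases hzw : z = w
          · exact Or.inl hzw
          · exact Or.inr (trans_adj hG (Ne.symm hzw) h.symm hz)

lemma sum_cn (hG : EdgeMaximal H4 G) :
    ∑ v : V, ((cn G v).card + 1) = ∑ P ∈ Finset.univ.image (cn G), P.card * (P.card + 1) := by
  rw [← Finset.sum_fiberwise_of_maps_to (g := cn G) (t := Finset.univ.image (cn G))
    (fun v _ => Finset.mem_image_of_mem _ (Finset.mem_univ v))]
  apply Finset.sum_congr rfl
  intro P hP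
  obtain ⟨w, _, rfl⟩ := Finset.mem_image.1 hP
  have h1 : Finset.univ.filter (fun v => cn G v = cn G w) = cn G w := by
    ext v
    rw [Finset.mem_filter, cn_eq_iff hG]
    simp
  rw [h1, Finset.sum_congr rfl (g := fun _ => (cn G w).card + 1), Finset.sum_const, smul_eq_mul]
  intro v hv
  rw [(cn_eq_iff hG w v).2 hv]

lemma two_card (hG : EdgeMaximal H4 G) :
    2 * G.edgeFinset.card + 2 * Fintype.card V =
      ∑ P ∈ Finset.univ.image (cn G), P.card * (P.card + 1) := by
  rw [← sum_cn hG, ← sum_degrees_eq_twice_card_edges]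
  simp only [card_cn, Finset.sum_add_distrib, Finset.sum_const, Finset.card_univ, smul_eq_mul]
  ring

/-- The edge number of an edge-maximal graph. -/
lemma edge_number (hG : EdgeMaximal H4 G) (hV : 1 ≤ Fintype.card V) :
    (3 ∣ G.edgeFinset.card + Fintype.card V ∧ Fintype.card V ≤ 2 * G.edgeFinset.card ∧
      G.edgeFinset.card ≤ Fintype.card V) ∨ G.edgeFinset.card + 1 = Fintype.card V := by
  have hsum := G.sum_degrees_eq_twice_card_edges
  by_cases hiso : ∃ v, G.degree v = 0
  · right
    obtain ⟨v, hv⟩ := hiso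
    have h1 : ∑ w : V, G.degree w = ∑ w ∈ Finset.univ.erase v, G.degree w := by
      rw [← Finset.add_sum_erase _ _ (Finset.mem_univ v), hv, zero_add]
    have h2 : ∑ w ∈ Finset.univ.erase v, G.degree w = (Fintype.card V - 1) * 2 := by
      rw [Finset.sum_congr rfl (g := fun _ => 2), Finset.sum_const, smul_eq_mul,
        Finset.card_erase_of_mem (Finset.mem_univ v), Finset.card_univ]
      intro w hw
      exact degree_eq_two hG hv (Finset.ne_of_mem_erase hw).symm
    omega
  · left
    push Not at hiso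
    refine ⟨?_, ?_, ?_⟩
    · have h6 : 6 ∣ ∑ P ∈ Finset.univ.image (cn G), P.card * (P.card + 1) := by
        apply Finset.dvd_sum
        intro P hP
        obtain ⟨w, _, rfl⟩ := Finset.mem_image.1 hP
        rw [card_cn]
        have h1 := degree_le hG w
        have h2 := hiso w
        have h3 : G.degree w = 1 ∨ G.degree w = 2 := by omega
        rcases h3 with h | h <;> rw [h] <;> norm_num
      rw [← two_card hG] at h6
      omega
    · rw [← hsum]
      calc Fintype.card V = ∑ _v : V, 1 := by simp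
        _ ≤ ∑ v : V, G.degree v :=
          Finset.sum_le_sum fun v _ => Nat.one_le_iff_ne_zero.2 (hiso v)
    · have : ∑ v : V, G.degree v ≤ ∑ _v : V, 2 := Finset.sum_le_sum fun v _ => degree_le hG v
      simp at this
      omega

end structure_

/-! ### The constructions -/

/-- The class of a vertex: the first `3 * x` vertices are grouped in threes, the others in
pairs. -/
def cls (x i : ℕ) : ℕ := if i < 3 * x then i / 3 else x + (i - 3 * x) / 2

/-- The union of `x` triangles and of `y` single edges, where `n = 3 * x + 2 * y`. -/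
def Gx (n x : ℕ) : SimpleGraph (Fin n) where
  Adj u v := u ≠ v ∧ cls x u.1 = cls x v.1
  symm := ⟨fun _ _ h => ⟨h.1.symm, h.2.symm⟩⟩
  loopless := ⟨fun _ h => h.1 rfl⟩

instance (n x : ℕ) : DecidableRel (Gx n x).Adj :=
  fun u v => inferInstanceAs (Decidable (u ≠ v ∧ cls x u.1 = cls x v.1))

lemma gx_class_small {n x : ℕ} (f : Fin 4 → Fin n) (hf : Function.Injective f)
    (h : ∀ i, cls x (f i).1 = cls x (f 0).1) : False := by
  have h1 := h 1
  have h2 := h 2
  have h3 := h 3
  have d01 : (f 0).1 ≠ (f 1).1 := fun h => by simpa using hf (Fin.ext h)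
  have d02 : (f 0).1 ≠ (f 2).1 := fun h => by simpa using hf (Fin.ext h)
  have d03 : (f 0).1 ≠ (f 3).1 := fun h => by simpa using hf (Fin.ext h)
  have d12 : (f 1).1 ≠ (f 2).1 := fun h => by simpa using hf (Fin.ext h)
  have d13 : (f 1).1 ≠ (f 3).1 := fun h => by simpa using hf (Fin.ext h)
  have d23 : (f 2).1 ≠ (f 3).1 := fun h => by simpa using hf (Fin.ext h)
  unfold cls at h1 h2 h3
  split_ifs at h1 h2 h3 <;> omega

lemma gx_free (n x : ℕ) : MinorFree H4 (Gx n x) := by
  rw [minorFree_iff]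
  rintro H hH ⟨B, hB, hdis, hadj⟩
  have hne : ∀ i, ∃ z, z ∈ B i := fun i => by
    obtain ⟨z⟩ := (hB i).nonempty
    exact ⟨z.1, z.2⟩
  obtain ⟨z, hz⟩ := hne 0
  have hall : ∀ i, ∀ a ∈ B i, ∀ b ∈ B i, cls x a.1 = cls x b.1 := by
    intro i a ha b hb
    have hr := (hB i).preconnected ⟨a, ha⟩ ⟨b, hb⟩
    refine closed_reach (S := fun w : B i => cls x a.1 = cls x w.1.1) ?_ hr rfl
    intro p q hpq hp
    have : (Gx n x).Adj p.1 q.1 := hpq
    exact hp.trans this.2
  have hP : ∀ i, ∀ b ∈ B i, cls x b.1 = cls x z.1 := by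
    intro i
    refine closed_reach (G := H) (S := fun i => ∀ b ∈ B i, cls x b.1 = cls x z.1) ?_
      (hH.preconnected 0 i) (fun b hb => hall 0 b hb z hz)
    intro i j hij hi b hb
    obtain ⟨p, hp, q, hq, hpq⟩ := hadj i j hij
    have := hpq.2
    rw [hall j b hb q hq, ← this]
    exact hi p hp
  choose g hg using hne
  have hinj : Function.Injective g := by
    intro i j hij
    by_contra hne
    have := Set.disjoint_left.1 (hdis i j hne) (hg i)
    rw [hij] at this
    exact this (hg j)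
  apply gx_class_small (x := x) g hinj
  intro i
  rw [hP i _ (hg i), hP 0 _ (hg 0)]

lemma gx_partner {n x y : ℕ} (hn : n = 3 * x + 2 * y) (u : Fin n) :
    ∃ u' : Fin n, u' ≠ u ∧ cls x u'.1 = cls x u.1 := by
  have hu := u.2
  by_cases h : u.1 < 3 * x
  · by_cases h3 : u.1 % 3 = 0
    · refine ⟨⟨u.1 + 1, by omega⟩, ?_, ?_⟩
      · intro h'; have := congrArg Fin.val h'; simp at this
      · unfold cls
        simp only
        split_ifs <;> omega
    · refine ⟨⟨u.1 - 1, by omega⟩, ?_, ?_⟩
      · intro h'; have := congrArg Fin.val h'; simp at this; omega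
      · unfold cls
        simp only
        split_ifs <;> omega
  · by_cases h3 : (u.1 - 3 * x) % 2 = 0
    · refine ⟨⟨u.1 + 1, by omega⟩, ?_, ?_⟩
      · intro h'; have := congrArg Fin.val h'; simp at this
      · unfold cls
        simp only
        split_ifs <;> omega
    · refine ⟨⟨u.1 - 1, by omega⟩, ?_, ?_⟩
      · intro h'; have := congrArg Fin.val h'; simp at this; omega
      · unfold cls
        simp only
        split_ifs <;> omega

lemma gx_edgeMaximal {n x y : ℕ} (hn : n = 3 * x + 2 * y) : EdgeMaximal H4 (Gx n x) := by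
  refine ⟨gx_free n x, ?_⟩
  intro u v huv hnadj hfree
  have hcls : cls x u.1 ≠ cls x v.1 := fun h => hnadj ⟨huv, h⟩
  obtain ⟨u', hu', hcu⟩ := gx_partner hn u
  obtain ⟨v', hv', hcv⟩ := gx_partner hn v
  apply no_four hfree (a := u') (b := u) (c := v) (d := v')
  · rintro rfl; exact hcls hcu.symm
  · rintro rfl; exact hcls (hcu.symm.trans hcv)
  · rintro rfl; exact hcls hcv
  · exact hv'
  · exact Or.inl ⟨hu', hcu⟩
  · right
    rw [SimpleGraph.edge_adj]
    exact ⟨Or.inl ⟨rfl, rfl⟩, huv⟩
  · exact Or.inr (Or.inr (Or.inl ⟨hv'.symm, hcv.symm⟩))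

lemma gx_degree {n x y : ℕ} (hn : n = 3 * x + 2 * y) (u : Fin n) :
    (Gx n x).degree u = if u.1 < 3 * x then 2 else 1 := by
  have hu := u.2
  rw [← card_neighborFinset_eq_degree]
  split_ifs with h
  · have e : (Gx n x).neighborFinset u =
        {⟨3 * (u.1 / 3) + (u.1 % 3 + 1) % 3, by omega⟩,
          ⟨3 * (u.1 / 3) + (u.1 % 3 + 2) % 3, by omega⟩} := by
      ext v
      have hv := v.2
      rw [mem_neighborFinset]
      simp only [Finset.mem_insert, Finset.mem_singleton, Fin.ext_iff]
      constructor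
      · rintro ⟨h1, h2⟩
        have h1' : u.1 ≠ v.1 := fun h => h1 (Fin.ext h)
        unfold cls at h2
        split_ifs at h2 <;> omega
      · intro h1
        refine ⟨?_, ?_⟩
        · rintro rfl; omega
        · unfold cls
          split_ifs <;> omega
    rw [e, Finset.card_pair]
    intro h'
    have := congrArg Fin.val h'
    simp only at this
    omega
  · have e : (Gx n x).neighborFinset u =
        {⟨3 * x + 2 * ((u.1 - 3 * x) / 2) + (1 - (u.1 - 3 * x) % 2), by omega⟩} := by
      ext v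
      have hv := v.2
      rw [mem_neighborFinset]
      simp only [Finset.mem_singleton, Fin.ext_iff]
      constructor
      · rintro ⟨h1, h2⟩
        have h1' : u.1 ≠ v.1 := fun h => h1 (Fin.ext h)
        unfold cls at h2
        split_ifs at h2 <;> omega
      · intro h1
        refine ⟨?_, ?_⟩
        · rintro rfl; omega
        · unfold cls
          split_ifs <;> omega
    rw [e, Finset.card_singleton]

lemma ncard_eq {n : ℕ} (G : SimpleGraph (Fin n)) [DecidableRel G.Adj] :
    G.edgeSet.ncard = G.edgeFinset.card := by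
  rw [← coe_edgeFinset, Set.ncard_coe_finset]

lemma gx_edges {n x y : ℕ} (hn : n = 3 * x + 2 * y) : (Gx n x).edgeSet.ncard = 3 * x + y := by
  rw [ncard_eq]
  have h := (Gx n x).sum_degrees_eq_twice_card_edges
  have h2 : ∑ u : Fin n, (Gx n x).degree u = 6 * x + 2 * y := by
    rw [Finset.sum_congr rfl (fun u _ => gx_degree hn u)]
    subst hn
    rw [Fin.sum_univ_add]
    have e1 : ∀ i : Fin (3 * x), (if (Fin.castAdd (2 * y) i).1 < 3 * x then 2 else 1) = 2 := by
      intro i; simp
    have e2 : ∀ i : Fin (2 * y), (if (Fin.natAdd (3 * x) i).1 < 3 * x then 2 else 1) = 1 := by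
      intro i; simp
    simp only [e1, e2]
    simp
    ring
  omega

lemma mem_E {n x y : ℕ} (hn : n = 3 * x + 2 * y) : 3 * x + y ∈ E H4 n :=
  ⟨Gx n x, gx_edgeMaximal hn, gx_edges hn⟩

lemma of_mem_E {n m : ℕ} (hn : 1 ≤ n) (hm : m ∈ E H4 n) :
    (3 ∣ m + n ∧ n ≤ 2 * m ∧ m ≤ n) ∨ m + 1 = n := by
  classical
  obtain ⟨G, hG, rfl⟩ := hm
  rw [ncard_eq]
  have := edge_number hG (by simpa using hn)
  simpa using this

lemma bddAbove_E (n : ℕ) (hn : 1 ≤ n) : BddAbove (E H4 n) := by
  refine ⟨n, ?_⟩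
  intro m hm
  have := of_mem_E hn hm
  omega

/-- The gap for `n = 6 k`. -/
lemma gap_six (k : ℕ) (hk : 1 ≤ k) : gap H4 (6 * k) = 3 * k := by
  have h1 : 6 * k ∈ E H4 (6 * k) := by
    have := mem_E (n := 6 * k) (x := 2 * k) (y := 0) (by ring)
    convert this using 1; ring
  have h2 : 3 * k ∈ E H4 (6 * k) := by
    have := mem_E (n := 6 * k) (x := 0) (y := 3 * k) (by ring)
    convert this using 1; ring
  have h3 : sSup (E H4 (6 * k)) = 6 * k := by
    apply le_antisymm
    · apply csSup_le ⟨_, h1⟩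
      intro m hm
      have := of_mem_E (by omega) hm
      omega
    · exact le_csSup (bddAbove_E _ (by omega)) h1
  have h4 : sInf (E H4 (6 * k)) = 3 * k := by
    apply le_antisymm
    · exact Nat.sInf_le h2
    · have := of_mem_E (by omega) (Nat.sInf_mem (s := E H4 (6 * k)) ⟨_, h1⟩)
      omega
  unfold gap
  rw [h3, h4]
  push_cast
  ring

/-- The number of edge numbers for `n = 6 k`. -/
lemma ncard_six (k : ℕ) (hk : 1 ≤ k) : (E H4 (6 * k)).ncard ≤ k + 2 := by
  have hsub : E H4 (6 * k) ⊆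
      (((Finset.range (k + 1)).image (fun i => 3 * k + 3 * i)) ∪ {6 * k - 1} : Finset ℕ) := by
    intro m hm
    have := of_mem_E (by omega) hm
    rw [Finset.mem_coe, Finset.mem_union, Finset.mem_image, Finset.mem_singleton]
    rcases this with ⟨h1, h2, h3⟩ | h
    · left
      refine ⟨(m - 3 * k) / 3, ?_, ?_⟩
      · rw [Finset.mem_range]; omega
      · omega
    · right; omega
  calc (E H4 (6 * k)).ncard ≤ _ := Set.ncard_le_ncard hsub (Finset.finite_toSet _)
    _ = _ := Set.ncard_coe_finset _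
    _ ≤ _ := Finset.card_union_le _ _
    _ ≤ k + 2 := by
      have := Finset.card_image_le (s := Finset.range (k + 1)) (f := fun i => 3 * k + 3 * i)
      simp at this ⊢
      omega

/-- A lower bound of the gap for all `n`. -/
lemma gap_ge (n : ℕ) (hn : 4 ≤ n) : (n : ℤ) ≤ 2 * gap H4 n + 10 := by
  -- many triangles
  obtain ⟨x, y, hxy, hy⟩ : ∃ x y, n = 3 * x + 2 * y ∧ y ≤ 2 := by
    have : n % 3 = 0 ∨ n % 3 = 1 ∨ n % 3 = 2 := by omega
    rcases this with h | h | h
    · exact ⟨n / 3, 0, by omega, by omega⟩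
    · exact ⟨(n - 4) / 3, 2, by omega, by omega⟩
    · exact ⟨(n - 2) / 3, 1, by omega, by omega⟩
  obtain ⟨x', y', hxy', hx'⟩ : ∃ x y, n = 3 * x + 2 * y ∧ x ≤ 1 := by
    have : n % 2 = 0 ∨ n % 2 = 1 := by omega
    rcases this with h | h
    · exact ⟨0, n / 2, by omega, by omega⟩
    · exact ⟨1, (n - 3) / 2, by omega, by omega⟩
  have h1 : 3 * x + y ≤ sSup (E H4 n) := le_csSup (bddAbove_E n (by omega)) (mem_E hxy)
  have h2 : sInf (E H4 n) ≤ 3 * x' + y' := Nat.sInf_le (mem_E hxy')
  unfold gap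
  omega

/-- **Main theorem.**  For the set `𝓗` of connected graphs on four vertices (a suitable set) the
class `Ex(𝓗)` is linearly impure, for every `k ≥ 1` we have `gap(6k) = 3k` and `|E(6k)| ≤ k + 2`.
Hence both Q1 and Q2 have a negative answer. -/
theorem result :
    (Suitable H4 ∧ LinearlyImpure H4 ∧
      ∀ k : ℕ, 1 ≤ k → gap H4 (6 * k) = 3 * k ∧ (E H4 (6 * k)).ncard ≤ k + 2) ∧
    ¬ (∀ 𝓗 : GraphSet, Suitable 𝓗 →
      ∃ C : ℤ, ∀ n : ℕ, 1 ≤ n → gap 𝓗 n - ((E 𝓗 n).ncard : ℤ) ≤ C) ∧
    ¬ (∀ 𝓗 : GraphSet, Suitable 𝓗 → LinearlyImpure 𝓗 →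
      Tendsto (fun n : ℕ => ((E 𝓗 n).ncard : ℝ) / (gap 𝓗 n : ℝ)) atTop (nhds 1)) := by
  have himp : LinearlyImpure H4 := by
    refine ⟨1 / 4, by norm_num, ?_⟩
    filter_upwards [eventually_ge_atTop 20] with n hn
    have h := gap_ge n (by omega)
    have h' : (n : ℝ) ≤ 2 * (gap H4 n : ℝ) + 10 := by exact_mod_cast h
    have hn' : (20 : ℝ) ≤ n := by exact_mod_cast hn
    rw [le_div_iff₀ (by linarith)]
    linarith
  have hk : ∀ k : ℕ, 1 ≤ k → gap H4 (6 * k) = 3 * k ∧ (E H4 (6 * k)).ncard ≤ k + 2 :=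
    fun k hk => ⟨gap_six k hk, ncard_six k hk⟩
  refine ⟨⟨suitable_H4, himp, hk⟩, ?_, ?_⟩
  · intro h
    obtain ⟨C, hC⟩ := h H4 suitable_H4
    obtain ⟨h1, h2⟩ := hk (C.toNat + 2) (by omega)
    have h3 := hC (6 * (C.toNat + 2)) (by omega)
    rw [h1] at h3
    omega
  · intro h
    have ht := h H4 suitable_H4 himp
    have ht2 : Tendsto (fun k : ℕ => ((E H4 (6 * k)).ncard : ℝ) / (gap H4 (6 * k) : ℝ)) atTop
        (nhds 1) := by
      apply ht.comp
      exact tendsto_id.const_mul_atTop' (by norm_num)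
    have hev : ∀ᶠ k : ℕ in atTop,
        ((E H4 (6 * k)).ncard : ℝ) / (gap H4 (6 * k) : ℝ) ≤ 1 / 2 := by
      filter_upwards [eventually_ge_atTop 4] with k hk4
      obtain ⟨h1, h2⟩ := hk k (by omega)
      have h2' : ((E H4 (6 * k)).ncard : ℝ) ≤ k + 2 := by exact_mod_cast h2
      have hk' : (4 : ℝ) ≤ k := by exact_mod_cast hk4
      rw [h1]
      push_cast
      rw [div_le_iff₀ (by linarith)]
      linarith
    have := le_of_tendsto ht2 hev
    norm_num at this

end Pool.Agent.Results.MP_4dddeb_co.EdgeNumberGaps
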